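import Mathlib
import Pool.Agent.X101.Fermat

/-!
# MP_ee1e03_al, Q1: `p(n,d) = 1`

The coefficient vector of a form of degree `d` in `n` variables is a function `c` on the set
`Expo n d` of the exponent vectors of degree `d`; `form c` is the form, `jac c` its Jacobian ideal
and `hess c` its Hessian determinant.
-/

namespace Pool.Agent.Results.MP_ee1e03_al.ExponentOne

open MvPolynomial Pool.Agent.X101.Generic

variable {n d : ℕ}

/-- The partial derivatives of the form have a common zero besides the origin. -/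
def Degenerate (c : Expo n d → ℂ) : Prop :=
  ∃ p : Fin n → ℂ, p ≠ 0 ∧ ∀ i, eval p (pderiv i (form c)) = 0

/-- `Δ` is the discriminant (it is unique up to a nonzero constant factor): an irreducible
polynomial function on the space of forms whose zeros are the degenerate forms. -/
def IsDiscriminant (Δ : MvPolynomial (Expo n d) ℂ) : Prop :=
  Irreducible Δ ∧ ∀ c, eval c Δ = 0 ↔ Degenerate c

/-- The number `μ_β(f)` with `z^β = μ_β(f) H_f` modulo the Jacobian ideal of the form `f` with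
coefficient vector `c`. -/
noncomputable def mu (c : Expo n d → ℂ) (β : Fin n →₀ ℕ) : ℂ :=
  Classical.epsilon fun m : ℂ => monomial β 1 - C m * hess c ∈ jac c

/-- The function `g`, defined for the forms with `Δ ≠ 0`, is given there by a polynomial in the
coefficients of the form. -/
def IsPolynomialFunction (Δ : MvPolynomial (Expo n d) ℂ) (g : (Expo n d → ℂ) → ℂ) : Prop :=
  ∃ P : MvPolynomial (Expo n d) ℂ, ∀ c, eval c Δ ≠ 0 → eval c P = g c

lemma van_of_disc {Δ : MvPolynomial (Expo n d) ℂ} (h : IsDiscriminant Δ) : Van Δ :=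
  fun c hc => (h.2 c).2 hc

lemma exists_unique (hd : 2 ≤ d) {Δ : MvPolynomial (Expo n d) ℂ} (hΔ : IsDiscriminant Δ)
    {c : Expo n d → ℂ} (hc : eval c Δ ≠ 0) (β : Fin n →₀ ℕ) (hβ : ∑ i, β i = n * (d - 2)) :
    ∃! m : ℂ, monomial β 1 - C m * hess c ∈ jac c := by
  obtain ⟨g, hg⟩ := socle_spec hd (van_of_disc hΔ) β hβ
  refine ⟨(eval c Δ)⁻¹ * eval c g, ?_, ?_⟩
  · have h1 := (jac c).mul_mem_left (C (eval c Δ)⁻¹) (hg c)
    rw [mul_sub, C_mul_monomial, inv_mul_cancel₀ hc, ← mul_assoc, ← C_mul] at h1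
    exact h1
  · intro m hm
    have h1 := (jac c).mul_mem_left (C (eval c Δ)⁻¹) (hg c)
    rw [mul_sub, C_mul_monomial, inv_mul_cancel₀ hc, ← mul_assoc, ← C_mul] at h1
    have h2 := (jac c).sub_mem h1 hm
    by_contra hne
    apply hess_notMem hd (van_of_disc hΔ) hc
    have h3 := (jac c).mul_mem_left (C (m - (eval c Δ)⁻¹ * eval c g)⁻¹) h2
    have h4 : m - (eval c Δ)⁻¹ * eval c g ≠ 0 := sub_ne_zero.2 hne
    have h5 : (monomial β 1 - C ((eval c Δ)⁻¹ * eval c g) * hess c)
        - (monomial β 1 - C m * hess c) = C (m - (eval c Δ)⁻¹ * eval c g) * hess c := by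
      rw [C_sub]; ring
    rw [h5, ← mul_assoc, ← C_mul, inv_mul_cancel₀ h4, C_1, one_mul] at h3
    exact h3

lemma mu_eq (hd : 2 ≤ d) {Δ : MvPolynomial (Expo n d) ℂ} (hΔ : IsDiscriminant Δ)
    {c : Expo n d → ℂ} (hc : eval c Δ ≠ 0) (β : Fin n →₀ ℕ) (hβ : ∑ i, β i = n * (d - 2)) {m : ℂ}
    (hm : monomial β 1 - C m * hess c ∈ jac c) : mu c β = m := by
  have h := exists_unique hd hΔ hc β hβ
  have h1 : monomial β 1 - C (mu c β) * hess c ∈ jac c :=
    Classical.epsilon_spec (p := fun m : ℂ => monomial β 1 - C m * hess c ∈ jac c) h.exists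
  exact h.unique h1 hm

/-- `Δ μ_β` is a polynomial function -/
lemma upper (hd : 2 ≤ d) {Δ : MvPolynomial (Expo n d) ℂ} (hΔ : IsDiscriminant Δ)
    (β : Fin n →₀ ℕ) (hβ : ∑ i, β i = n * (d - 2)) :
    IsPolynomialFunction Δ fun c => eval c Δ ^ (1 : ℤ) * mu c β := by
  obtain ⟨g, hg⟩ := socle_spec hd (van_of_disc hΔ) β hβ
  refine ⟨g, fun c hc => ?_⟩
  have h1 := (jac c).mul_mem_left (C (eval c Δ)⁻¹) (hg c)
  rw [mul_sub, C_mul_monomial, inv_mul_cancel₀ hc, ← mul_assoc, ← C_mul] at h1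
  have h2 := mu_eq hd hΔ hc β hβ h1
  simp only [h2, zpow_one]
  rw [mul_inv_cancel_left₀ hc]

/-! ### Scaling -/

lemma form_smul (t : ℂ) (c : Expo n d → ℂ) : form (t • c) = C t * form c := by
  unfold form
  rw [Finset.mul_sum]
  refine Finset.sum_congr rfl fun α _ => ?_
  rw [C_mul_monomial]
  rfl

lemma jac_smul {t : ℂ} (ht : t ≠ 0) (c : Expo n d → ℂ) : jac (t • c) = jac c := by
  unfold jac
  apply le_antisymm
  · rw [Ideal.span_le]
    rintro _ ⟨i, rfl⟩
    change pderiv i (form (t • c)) ∈ Ideal.span (Set.range fun i => pderiv i (form c))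
    rw [form_smul, pderiv_C_mul]
    exact Ideal.mul_mem_left _ _ (Ideal.subset_span ⟨i, rfl⟩)
  · rw [Ideal.span_le]
    rintro _ ⟨i, rfl⟩
    change pderiv i (form c) ∈ Ideal.span (Set.range fun i => pderiv i (form (t • c)))
    have h1 : pderiv i (form c) = C t⁻¹ * pderiv i (form (t • c)) := by
      rw [form_smul, pderiv_C_mul, ← mul_assoc, ← C_mul, inv_mul_cancel₀ ht, C_1, one_mul]
    rw [h1]
    exact Ideal.mul_mem_left _ _ (Ideal.subset_span ⟨i, rfl⟩)

lemma hess_smul (t : ℂ) (c : Expo n d → ℂ) : hess (t • c) = C (t ^ n) * hess c := by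
  unfold hess
  have h1 : (Matrix.of fun i j => pderiv i (pderiv j (form (t • c))))
      = (C t : MvPolynomial (Fin n) ℂ) • Matrix.of fun i j => pderiv i (pderiv j (form c)) := by
    ext1 i j
    simp only [Matrix.of_apply, Matrix.smul_apply, smul_eq_mul]
    rw [form_smul, pderiv_C_mul, pderiv_C_mul]
  rw [h1, Matrix.det_smul, Fintype.card_fin, ← C_pow]

lemma nondeg_smul (hd : 2 ≤ d) {Δ : MvPolynomial (Expo n d) ℂ} (hΔ : IsDiscriminant Δ) {t : ℂ}
    (ht : t ≠ 0) : eval (t • cc n d) Δ ≠ 0 := by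
  intro h
  obtain ⟨p, hp, hp'⟩ := (hΔ.2 _).1 h
  apply hp
  apply nondeg_cc hd p
  intro i
  have h1 := hp' i
  rw [form_smul, pderiv_C_mul, map_mul, eval_C] at h1
  rcases mul_eq_zero.1 h1 with h2 | h2
  · exact absurd h2 ht
  · exact h2

/-- no smaller power of `Δ` suffices, for any `β` -/
lemma lower (hn : 1 ≤ n) (hd : 2 ≤ d) {Δ : MvPolynomial (Expo n d) ℂ} (hΔ : IsDiscriminant Δ)
    (β : Fin n →₀ ℕ) (hβ : ∑ i, β i = n * (d - 2)) (k : ℤ)
    (hk : IsPolynomialFunction Δ fun c => eval c Δ ^ k * mu c β) : 1 ≤ k := by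
  by_contra hlt
  push Not at hlt
  obtain ⟨P, hP⟩ := hk
  obtain ⟨j, hj⟩ : ∃ j : ℕ, k = -(j : ℤ) := ⟨(-k).toNat, by omega⟩
  have h1 : eval (cc n d) Δ ≠ 0 := by
    have := nondeg_smul hd hΔ (n := n) (one_ne_zero)
    rwa [one_smul] at this
  set m := mu (cc n d) β with hm
  have hmspec : monomial β 1 - C m * hess (cc n d) ∈ jac (cc n d) :=
    Classical.epsilon_spec (p := fun m : ℂ => monomial β 1 - C m * hess (cc n d) ∈ jac (cc n d))
      (exists_unique hd hΔ h1 β hβ).exists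
  have hm0 : m ≠ 0 := by
    intro h0
    rw [h0, C_0, zero_mul, sub_zero] at hmspec
    exact monomial_notMem hd β hβ hmspec
  -- the identity for `t ≠ 0`
  have hid : ∀ t : ℂ, t ≠ 0 →
      eval (t • cc n d) P * eval (t • cc n d) Δ ^ j * t ^ n = m := by
    intro t ht
    have h2 := nondeg_smul hd hΔ (n := n) ht
    have h3 : mu (t • cc n d) β = (t ^ n)⁻¹ * m := by
      apply mu_eq hd hΔ h2 β hβ
      rw [jac_smul ht, hess_smul, ← mul_assoc, ← C_mul]
      have : (t ^ n)⁻¹ * m * t ^ n = m := by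
        have : t ^ n ≠ 0 := pow_ne_zero _ ht
        field_simp
      rw [this]
      exact hmspec
    have h4 := hP _ h2
    simp only [h3, hj, zpow_neg, zpow_natCast] at h4
    rw [h4]
    have h5 : t ^ n ≠ 0 := pow_ne_zero _ ht
    have h6 : eval (t • cc n d) Δ ^ j ≠ 0 := pow_ne_zero _ h2
    field_simp
  have hcont : Continuous fun t : ℂ =>
      eval (t • cc n d) P * eval (t • cc n d) Δ ^ j * t ^ n := by
    have h2 : Continuous fun t : ℂ => t • cc n d := by fun_prop
    have h3 : ∀ Q : MvPolynomial (Expo n d) ℂ, Continuous fun t : ℂ => eval (t • cc n d) Q :=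
      fun Q => (MvPolynomial.continuous_eval Q).comp h2
    exact ((h3 P).mul ((h3 Δ).pow j)).mul (continuous_id.pow n)
  have heq : (fun t : ℂ => eval (t • cc n d) P * eval (t • cc n d) Δ ^ j * t ^ n)
      = fun _ => m :=
    hcont.ext_on (dense_compl_singleton (0 : ℂ)) continuous_const fun t ht => hid t ht
  have h0 := congrFun heq 0
  simp only [zero_pow (by omega : n ≠ 0), mul_zero] at h0
  exact hm0 h0.symm

/-- **`p(n,d) = 1`.** For all `n ≥ 2`, `d ≥ 3`: for every form with nonzero discriminant the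
numbers `μ_β` are well defined, and for every exponent vector `β` of degree `n (d - 2)` the
smallest integer `k` such that `Δ^k μ_β` is a polynomial function is `1`. -/
theorem result : ∀ n d : ℕ, 2 ≤ n → 3 ≤ d → ∀ Δ : MvPolynomial (Expo n d) ℂ, IsDiscriminant Δ →
    ∀ β : Fin n →₀ ℕ, ∑ i, β i = n * (d - 2) →
      (∀ c, eval c Δ ≠ 0 → ∃! m : ℂ, monomial β 1 - C m * hess c ∈ jac c) ∧
      IsLeast {k : ℤ | IsPolynomialFunction Δ fun c => eval c Δ ^ k * mu c β} 1 := by
  intro n d hn hd Δ hΔ β hβ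
  exact ⟨fun c hc => exists_unique (by omega) hΔ hc β hβ,
    upper (by omega) hΔ β hβ, fun k hk => lower (by omega) (by omega) hΔ β hβ k hk⟩

end Pool.Agent.Results.MP_ee1e03_al.ExponentOne
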